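import Pool.Agent.Y690.W.Fin1
import Pool.Agent.W287.HK.Basic
import Pool.Agent.W571.HK.Cls
import Pool.Agent.W53.HK.Fp
import Pool.Agent.W366.HK.Fpr
import Pool.Agent.W585.HK.LAT
import Pool.Agent.W692.HK.Ker
import Pool.Agent.W584.HK.CNT
import Pool.Agent.W856.HK.Dec
import Pool.Agent.W636.HK.Gauss
import Pool.Agent.W348.HK.Pois

/-!
# Nonvanishing of the `L`-function in the Beilinson–Bloch conjecture, in every degree

Let `K = ℚ(i)`, `R = ℤ[i]`.  Every odd squarefree element of `R` is, up to a unit, the product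
`D = ∏ p ∈ S, p` for a unique finite set `S` of primes of `R` congruent to `1` modulo `2 + 2 i`.  Let
`E_S` be the elliptic curve `(1 + i) D y² = x³ - x` over `K`, which has complex multiplication by `R`.
Its Hecke character `ψ_S` is given by `ψ_S((α)) = (-1) ^ x (α / D) α` for
`α = 1 + (2 + 2 i) (x + y i)`, where `(α / D)` is the product of the quadratic residue symbols
`(α / p)`, `p ∈ S` (by the reciprocity laws `(α / D) = (D / α)` and `(-1) ^ x = ((1 + i) / α)`);
`ψ_S` vanishes at the ideals that are not prime to `1 + i`.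

For `X = E_S ^ N` the representation `H^(2k-1)(X)` of `Gal(Kbar / K)` is a direct sum of the characters
`ψ_S ^ a * conj ψ_S ^ b`, `a + b = 2 k - 1`, and for `X = E_S ^ N × E_S' ^ M` of such characters of
`E_S` and `E_S'`.

We call `S` odd if the following matrix over the field with two elements is invertible: the entry
at `(p, q)`, `p ≠ q`, is `1` if `p` is not a square modulo `q` and `0` otherwise, and the entry at
`(p, p)` is the sum of the other entries of its row, plus one if `1 + i` is not a square modulo `p`.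
By reciprocity this is a Laplace matrix: `S` is odd if and only if the graph on the prime divisors of
`(1 + i) D`, in which two primes are joined if they are not squares modulo each other (or `1 + i` is
not a square modulo the other one), has an odd number of spanning trees.  The empty set is odd, `{p}`
is odd if and only if `1 + i` is not a square modulo `p`, and every finite set of such primes that are
squares modulo each other is odd.

Theorem: for odd `S` the function `L(ψ_S ^ a * conj ψ_S ^ b, s)` does not vanish at the centre `s = k`,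
for all `k ≥ 1` and all `a + b = 2 k - 1`.  In particular `L(H^(2k-1)(X / K), s)` is not zero at `s = k`
for every `k ≥ 1` and every `X = E_S ^ N × E_S' ^ M` with odd `S`, `S'`: the Beilinson–Bloch conjecture
predicts that all the groups `CH^k(X)_hom` are torsion.

The proof gives the exact `2`-adic valuation of the algebraic part of the central values.
-/

set_option autoImplicit false

open Complex IsDedekindDomain

namespace Pool.Agent.Results.MP_b8021b_nt.EveryDegree

/-- The norm `N(J)` of an ideal (`0` for the zero ideal, whose residue ring is infinite). -/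
noncomputable def norm {R : Subring ℂ} (J : Ideal R) : ℝ := (Nat.card (R ⧸ J) : ℝ)

open Classical in
/-- The quadratic residue symbol `(α / p)` for a prime `p` of `R`: it is `0` if `p` divides `α`, `1` if
`α` is a nonzero square modulo `p`, and `-1` if `α` is not a square modulo `p`. -/
noncomputable def symbol {R : Subring ℂ} (p α : R) : ℤ :=
  if α ∈ Ideal.span {p} then 0 else if ∃ β : R, β * β - α ∈ Ideal.span {p} then 1 else -1

open Classical in
/-- Here `f = 2 + 2 i`.  For `α = 1 + f (x + y i)` the sign is `(-1) ^ x`. -/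
noncomputable def sign {R : Subring ℂ} (f α : R) : ℤ :=
  if ∃ x y : ℤ, Even x ∧ (α : ℂ) = 1 + f * (x + y * I) then 1 else -1

/-- `ψ`, a function on the ideals of `R`, is the Hecke character of
`E_S : (1 + i) (∏ p ∈ S, p) y² = x³ - x`; here `f = 2 + 2 i`. -/
def IsHeckeCharacter {R : Subring ℂ} (f : R) (S : Finset R) (ψ : Ideal R → ℂ) : Prop :=
  (∀ I J : Ideal R, ψ (I * J) = ψ I * ψ J) ∧
  (∀ α : R, α - 1 ∈ Ideal.span {f} →
    ψ (Ideal.span {α}) = sign f α * (∏ p ∈ S, symbol p α : ℤ) * α) ∧
  ∀ J : Ideal R, (¬ ∃ α : R, α - 1 ∈ Ideal.span {f} ∧ J = Ideal.span {α}) → ψ J = 0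

open Classical in
/-- The finite set `S` of primes congruent to `1` modulo `f = 2 + 2 i` is odd: there is no nonempty
subset `V` of `S` with `sign p * ∏ q ∈ S \ V, (p / q) = 1` for all `p ∈ V` and `∏ q ∈ V, (p / q) = 1`
for all `p ∈ S \ V`.  (The matrix described above has no nonzero vector in its kernel; `V` is the
support of the vector.) -/
def IsOdd {R : Subring ℂ} (f : R) (S : Finset R) : Prop :=
  (∀ p ∈ S, Prime p ∧ p - 1 ∈ Ideal.span {f}) ∧
  ∀ V ⊆ S, V.Nonempty → (∃ p ∈ V, sign f p * ∏ q ∈ S \ V, symbol q p = -1) ∨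
    (∃ p ∈ S \ V, ∏ q ∈ V, symbol q p = -1)

/-- **Main theorem.** Let `R = ℤ[i]`, `f = 2 + 2 i` and let `S 1, ..., S n` be finite sets of primes
that are odd.  Then the Hecke characters `ψ j` of the elliptic curves
`(1 + i) (∏ p ∈ S j, p) y² = x³ - x` exist, and for all `k ≥ 1` and all `a j`, `b j` with
`a j + b j = 2 k - 1` the `L`-function of the direct sum of the `ψ j ^ a j * conj (ψ j) ^ b j` extends
to an entire function that is not zero at the centre `s = k`. -/
theorem result (R : Subring ℂ) (hR : ∀ z : ℂ, z ∈ R ↔ ∃ x y : ℤ, z = x + y * I)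
    (f : R) (hf : (f : ℂ) = 2 + 2 * I) (n : ℕ) (S : Fin n → Finset R) (hS : ∀ j, IsOdd f (S j)) :
    ∃ ψ : Fin n → Ideal R → ℂ, (∀ j, IsHeckeCharacter f (S j) (ψ j)) ∧
      ∀ (k : ℕ) (a b : Fin n → ℕ), 1 ≤ k → (∀ j, a j + b j = 2 * k - 1) →
        ∃ L : ℂ → ℂ, Differentiable ℂ L ∧
          (∀ s : ℂ, (k : ℝ) + 1 / 2 < s.re → HasProd (fun P : HeightOneSpectrum R =>
            ∏ j, (1 - ψ j P.asIdeal ^ a j * (starRingEnd ℂ) (ψ j P.asIdeal) ^ b j *
              (norm P.asIdeal : ℂ) ^ (-s))⁻¹) (L s)) ∧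
          L k ≠ 0 := by
  classical
  have hbasic := Pool.Agent.W287.HK.h_basic
  have hcls := Pool.Agent.W571.HK.h_cls hbasic
  have hfp := Pool.Agent.W53.HK.h_fp hbasic hcls
  have hfpr := Pool.Agent.W366.HK.h_fpr hbasic hcls
  have hlat := Pool.Agent.W585.HK.h_lat hbasic
  have hker := Pool.Agent.W692.HK.h_ker hbasic hcls hfpr
  have hcnt := Pool.Agent.W584.HK.h_cnt hbasic hcls hfpr hlat hker
  have hdec := Pool.Agent.W856.HK.h_dec hbasic
  have hgauss := Pool.Agent.W636.HK.h_gauss hbasic hfp
  have hpois := Pool.Agent.W348.HK.h_pois hbasic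
  have htheta := Pool.Agent.TH936.HK.h_theta hbasic hfp hdec hgauss hpois hcnt
  have hafe := Pool.Agent.TH936.HK.h_afe hbasic hfp hcnt hgauss htheta
  have hff : f = Pool.Agent.Y690.NV.ff hR :=
    Subtype.ext (by rw [hf, Pool.Agent.Y690.NV.ff_coe])
  subst hff
  have hpr : ∀ j, ∀ p ∈ S j, Prime p ∧ Pool.Agent.Y690.AW.Pri p := by
    intro j p hp
    obtain ⟨h1, h2⟩ := (hS j).1 p hp
    exact ⟨h1, (Pool.Agent.Y690.AW.pri_iff hR p).mp h2⟩
  have hsym : ∀ p α : R, symbol p α = Pool.Agent.Y690.NV.qs p α := fun p α => rfl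
  have hsign : ∀ α : R, sign (Pool.Agent.Y690.NV.ff hR) α = Pool.Agent.Y690.AW.sg hR α := by
    intro α
    have h1 : (∃ x y : ℤ, Even x ∧ (α : ℂ) = 1 + Pool.Agent.Y690.NV.ff hR * (x + y * I)) ↔
        ∃ x y : ℤ, Even x ∧ α = 1 + Pool.Agent.Y690.NV.ff hR * Pool.Agent.Y690.NV.mkz hR x y := by
      constructor
      · rintro ⟨x, y, hx, h⟩
        exact ⟨x, y, hx, Subtype.ext (by push_cast; rw [h, Pool.Agent.Y690.NV.mkz_coe])⟩
      · rintro ⟨x, y, hx, h⟩
        exact ⟨x, y, hx, by rw [h]; push_cast; rw [Pool.Agent.Y690.NV.mkz_coe]⟩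
    unfold sign Pool.Agent.Y690.AW.sg
    by_cases h2 : ∃ x y : ℤ, Even x ∧ (α : ℂ) = 1 + Pool.Agent.Y690.NV.ff hR * (x + y * I)
    · rw [if_pos h2, if_pos (h1.mp h2)]
    · rw [if_neg h2, if_neg (fun h3 => h2 (h1.mpr h3))]
  have hadm : ∀ j, Pool.Agent.Y690.AW.Adm1 hR (S j) := by
    intro j
    refine Pool.Agent.Y690.AW.adm1_of hR hbasic (hpr j) fun V hV hne => ?_
    have h1 := (hS j).2 V hV hne
    simp only [hsign, hsym] at h1
    exact h1
  refine ⟨fun j => Pool.Agent.Y690.AW.tw1 hR 1 (S j), fun j => ⟨?_, fun α hα => ?_, fun J hJ => ?_⟩,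
    fun k a b hk hab => ?_⟩
  · exact (Pool.Agent.Y690.AW.tw1_main hR hbasic hfp hcnt hdec hafe (hadm j) 0).1.mul
  · have h := Pool.Agent.Y690.AW.tw1_gen hR 1 (S j) hα
    rw [pow_one] at h
    rw [hsign]
    exact h
  · exact Pool.Agent.Y690.AW.tw1_zero hR (S j) 1 hJ
  · exact Pool.Agent.Y690.AW.family1 hR hbasic hfp hcnt hdec hafe n hadm k hk a b hab

end Pool.Agent.Results.MP_b8021b_nt.EveryDegree
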