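import Pool.Agent.Y690.X.Single
import Pool.Agent.W287.HK.Basic
import Pool.Agent.W571.HK.Cls
import Pool.Agent.W53.HK.Fp
import Pool.Agent.W366.HK.Fpr
import Pool.Agent.W585.HK.LAT
import Pool.Agent.W692.HK.Ker
import Pool.Agent.W584.HK.CNT
import Pool.Agent.W856.HK.Dec
import Pool.Agent.W636.HK.Gauss
import Pool.Agent.W348.HK.Pois
import Pool.Agent.W29.HK.Prod

/-!
# Nonvanishing of the `L`-function in the Beilinson–Bloch conjecture, in infinitely many weights

Let `K = ℚ(i)`, `R = ℤ[i]`.  For `D ∈ R` let `E_D : D y² = x³ - x`, an elliptic curve over `K` with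
complex multiplication by `R`.  Its Hecke character `ψ_D` is, for `D = 1`, given by
`ψ((α)) = α` for `α ≡ 1 mod 2 + 2 i`, and for a prime `D ≡ 1 mod 4` by `ψ_D((α)) = (α / D) α`, with the
quadratic residue symbol of `R` (reciprocity: `(α / D) = (D / α)`); `ψ_D` vanishes at the ideals not
prime to `2 + 2 i`.

For `X = E_D ^ N` the representation `H^(2k-1)(X)` of `Gal(Kbar / K)` is a direct sum of the characters
`ψ_D ^ a * conj ψ_D ^ b`, `a + b = 2 k - 1`, and for `X = E_D ^ N × E_D' ^ M` of such characters of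
`E_D` and `E_D'`.

We call `D` admissible if `D = 1`, or `D` is a prime of `R` of the form `1 + 4 (x + y i)` with `x + y`
odd, e.g. `D = -p` for a rational prime `p ≡ 3 mod 8` (then `E_D` is over `K` isomorphic to the curve
`p y² = x³ - x` of the congruent number problem).  We show that, for admissible `D`,
`L(ψ_D ^ a * conj ψ_D ^ b, s)` does not vanish at the centre `s = k` if `|a - b|` is `1` or `3` modulo
`8`.  In particular

* `L(H^3(E_D ^ N × E_D' ^ M / K), s)` is not zero at `s = 2` for all `N`, `M` and all admissible `D`,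
  `D'`: the Beilinson–Bloch conjecture predicts that `CH^2(E_D ^ N × E_D' ^ M)_hom` is a torsion group;
* `L(ψ_D ^ (2 k - 1), k)` is not zero for all `k ≡ 1, 2 mod 4` and all admissible `D`.

The proof gives the exact `2`-adic valuation of the algebraic part.
-/

set_option autoImplicit false

open Complex IsDedekindDomain

namespace Pool.Agent.Results.MP_b8021b_nt.NonvanishingEveryWeight

/-- The norm `N(J)` of an ideal (`0` for the zero ideal, whose residue ring is infinite). -/
noncomputable def norm {R : Subring ℂ} (J : Ideal R) : ℝ := (Nat.card (R ⧸ J) : ℝ)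

open Classical in
/-- For a prime `D` of `R` the quadratic residue symbol `(α / D)`, which is `0` if `D` divides `α`,
`1` if `α` is a nonzero square modulo `D`, and `-1` if `α` is not a square modulo `D`; for `D = 1` it
is `1`. -/
noncomputable def symbol {R : Subring ℂ} (D α : R) : ℂ :=
  if D = 1 then 1 else if α ∈ Ideal.span {D} then 0 else
    if ∃ β : R, β * β - α ∈ Ideal.span {D} then 1 else -1

/-- `ψ`, a function on the ideals of `R`, is the Hecke character of `E_D : D y² = x³ - x`; here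
`f = 2 + 2 i`. -/
def IsHeckeCharacter {R : Subring ℂ} (f D : R) (ψ : Ideal R → ℂ) : Prop :=
  (∀ I J : Ideal R, ψ (I * J) = ψ I * ψ J) ∧
  (∀ α : R, α - 1 ∈ Ideal.span {f} → ψ (Ideal.span {α}) = symbol D α * α) ∧
  ∀ J : Ideal R, (¬ ∃ α : R, α - 1 ∈ Ideal.span {f} ∧ J = Ideal.span {α}) → ψ J = 0

/-- `D` is admissible: `D = 1`, or `D` is a prime of `R` of the form `1 + 4 (x + y i)` with `x + y`
odd. -/
def Admissible {R : Subring ℂ} (D : R) : Prop :=
  D = 1 ∨ (Prime D ∧ ∃ x y : ℤ, (D : ℂ) = 1 + 4 * (x + y * I) ∧ Odd (x + y))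

/-- **Main theorem.** Let `R = ℤ[i]`, `f = 2 + 2 i` and let `D 1, ..., D n` be admissible.  Then the
Hecke characters `ψ j` of the elliptic curves `D j * y² = x³ - x` exist, and for all `k ≥ 1` and all
`a j`, `b j` with `a j + b j = 2 k - 1` and `|a j - b j|` equal to `1` or `3` modulo `8` the `L`-function
of the direct sum of the `ψ j ^ a j * conj (ψ j) ^ b j` extends to an entire function that is not zero
at the centre `s = k`. -/
theorem result (R : Subring ℂ) (hR : ∀ z : ℂ, z ∈ R ↔ ∃ x y : ℤ, z = x + y * I)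
    (f : R) (hf : (f : ℂ) = 2 + 2 * I) (n : ℕ) (D : Fin n → R) (hD : ∀ j, Admissible (D j)) :
    ∃ ψ : Fin n → Ideal R → ℂ, (∀ j, IsHeckeCharacter f (D j) (ψ j)) ∧
      ∀ (k : ℕ) (a b : Fin n → ℕ), 1 ≤ k → (∀ j, a j + b j = 2 * k - 1) →
        (∀ j, ((a j : ℤ) - b j).natAbs % 8 = 1 ∨ ((a j : ℤ) - b j).natAbs % 8 = 3) →
        ∃ L : ℂ → ℂ, Differentiable ℂ L ∧
          (∀ s : ℂ, (k : ℝ) + 1 / 2 < s.re → HasProd (fun P : HeightOneSpectrum R =>
            ∏ j, (1 - ψ j P.asIdeal ^ a j * (starRingEnd ℂ) (ψ j P.asIdeal) ^ b j *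
              (norm P.asIdeal : ℂ) ^ (-s))⁻¹) (L s)) ∧
          L k ≠ 0 := by
  have hbasic := Pool.Agent.W287.HK.h_basic
  have hcls := Pool.Agent.W571.HK.h_cls hbasic
  have hfp := Pool.Agent.W53.HK.h_fp hbasic hcls
  have hfpr := Pool.Agent.W366.HK.h_fpr hbasic hcls
  have hlat := Pool.Agent.W585.HK.h_lat hbasic
  have hker := Pool.Agent.W692.HK.h_ker hbasic hcls hfpr
  have hcnt := Pool.Agent.W584.HK.h_cnt hbasic hcls hfpr hlat hker
  have hdec := Pool.Agent.W856.HK.h_dec hbasic
  have hgauss := Pool.Agent.W636.HK.h_gauss hbasic hfp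
  have hpois := Pool.Agent.W348.HK.h_pois hbasic
  have htheta := Pool.Agent.TH936.HK.h_theta hbasic hfp hdec hgauss hpois hcnt
  have hafe := Pool.Agent.TH936.HK.h_afe hbasic hfp hcnt hgauss htheta
  have hprod := Pool.Agent.W29.HK.h_prod hbasic hfp
  have hff : f = Pool.Agent.Y690.NV.ff hR :=
    Subtype.ext (by rw [hf, Pool.Agent.Y690.NV.ff_coe])
  subst hff
  have hD' : ∀ j, Pool.Agent.Y690.NV.Adm (D j) := hD
  refine ⟨fun j => Pool.Agent.Y690.NV.tw hR 1 (D j), fun j => ⟨?_, fun α hα => ?_, fun J hJ => ?_⟩,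
    fun k a b hk hab h8 => ?_⟩
  · exact Pool.Agent.Y690.NV.tw_mul hR hbasic hfp hcnt hdec hafe hprod (hD' j)
  · have h := Pool.Agent.Y690.NV.tw_gen hR hbasic (hD' j) 1 hα
    rw [pow_one] at h
    refine h.trans ?_
    congr 1
    unfold Pool.Agent.Y690.NV.sy symbol
    by_cases h1 : D j = 1
    · rw [if_pos h1, if_pos h1]
      push_cast
      rfl
    · rw [if_neg h1, if_neg h1]
      unfold Pool.Agent.Y690.NV.qs
      push_cast
      rfl
  · exact Pool.Agent.Y690.NV.tw_zero hR (D j) 1 hJ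
  · exact Pool.Agent.Y690.NV.family hR hbasic hfp hcnt hdec hafe hprod n hD' k hk a b hab h8

end Pool.Agent.Results.MP_b8021b_nt.NonvanishingEveryWeight
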