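import Pool.Agent.Y690.PP.Last

/-!
# The Beilinson–Bloch conjecture for the powers of a positive proportion of the curves
# `D y² = x³ - x`

Let `K = ℚ(i)` and, for a squarefree Gaussian integer `D`, let `E_D` be the elliptic curve
`D y² = x³ - x` over `K`, the quadratic twist by `D` of `y² = x³ - x`.  It has complex multiplication
by `ℤ[i]`; its Hecke character `ψ_D` is given by `ψ_D((p)) = (D / p) p` for the primes `p` of `ℤ[i]` with
`p ≡ 1 mod 2 + 2 i`, where `(D / p)` is the quadratic residue symbol; these primes are generators of all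
the prime ideals but `(1 + i)`, and `ψ_D((1 + i)) = 0` if `1 + i` divides `D`.

For `X = E_D ^ N` the representation `H^(2m-1)(X)` of `Gal(Kbar / K)` is a direct sum of the characters
`ψ_D ^ a * conj ψ_D ^ b` with `a + b = 2 m - 1`, `a, b ≥ 0`, so `L(H^(2m-1)(X), s)` is a product of the
functions `L(ψ_D ^ a * conj ψ_D ^ b, s)`.

Theorem: there is a set of squarefree Gaussian integers divisible by `1 + i`, of lower density at least
`∏ (1 - 2^(-2n-1)) = 0.4194...` among all of them (ordered by norm), such that for all `D` in the set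

* `E_D(K)` consists of the four points of order at most two, and
* `L(ψ_D ^ a * conj ψ_D ^ b, s)` is entire and does not vanish at the centre `s = m` for all `m ≥ 1`
  and all `a + b = 2 m - 1`.

So for all these `D` and all `N` the Beilinson–Bloch conjecture holds for `m = 1` and `X = E_D ^ N`:
`rank CH^1(X)_hom = rank E_D(K)^N = 0 = ord_{s=1} L(H^1(X), s)`, and for every `m ≥ 1` its analytic side
is zero: it predicts that all the groups `CH^m(X)_hom` are torsion.
-/

set_option autoImplicit false

namespace Pool.Agent.Results.MP_b8021b_nt.PositiveProportion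

open Classical in
/-- The quadratic residue symbol `(D / p)` for a prime `p` of `ℤ[i]`: it is `0` if `p` divides `D`,
`1` if `D` is a nonzero square modulo `p`, and `-1` if `D` is not a square modulo `p`. -/
noncomputable def symbol (p D : GaussianInt) : ℤ :=
  if p ∣ D then 0 else if ∃ b : GaussianInt, p ∣ b * b - D then 1 else -1

/-- The primes `p` of `ℤ[i]` with `p ≡ 1 mod 2 + 2 i`: one generator for each prime ideal prime to
`1 + i`. -/
def PrimaryPrime : Type := {p : GaussianInt // Prime p ∧ (⟨2, 2⟩ : GaussianInt) ∣ p - 1}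

/-- `L` is entire and it is the Hecke `L`-function of `ψ_D ^ a * conj ψ_D ^ b` (`a + b` odd, `D`
divisible by `1 + i`): the Euler product over all prime ideals, in the half plane of absolute
convergence. -/
def IsLFunction (D : GaussianInt) (a b : ℕ) (L : ℂ → ℂ) : Prop :=
  Differentiable ℂ L ∧ ∀ s : ℂ, ((a : ℝ) + b) / 2 + 1 < s.re →
    HasProd (fun p : PrimaryPrime => (1 - (symbol p.1 D : ℂ) * (p.1 : ℂ) ^ a *
      (starRingEnd ℂ) (p.1 : ℂ) ^ b * ((p.1.norm : ℤ) : ℂ) ^ (-s))⁻¹) (L s)

/-- The squarefree Gaussian integers `D` of norm at most `X` that are divisible by `1 + i`. -/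
def Twists (X : ℝ) : Set GaussianInt :=
  {D | Squarefree D ∧ (⟨1, 1⟩ : GaussianInt) ∣ D ∧ ((D.norm : ℤ) : ℝ) ≤ X}

/-- The curve `D y² = x³ - x` has no affine points over `K = ℚ(i)` but `(0, 0)`, `(1, 0)` and
`(-1, 0)`. -/
def NoPoints (D : GaussianInt) : Prop :=
  ∀ x y : FractionRing GaussianInt,
    algebraMap GaussianInt (FractionRing GaussianInt) D * y ^ 2 = x ^ 3 - x → y = 0

/-- `L(ψ_D ^ a * conj ψ_D ^ b, s)` is entire and not zero at `s = m` for all `m ≥ 1` and all
`a + b = 2 m - 1`. -/
def Nonvanishing (D : GaussianInt) : Prop :=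
  ∀ m a b : ℕ, 1 ≤ m → a + b = 2 * m - 1 → ∃ L : ℂ → ℂ, IsLFunction D a b L ∧ L m ≠ 0

/-- **Main theorem.** Put `α = ∏ (1 - 2^(-2n-1)) > 0.419`.  Among the squarefree Gaussian integers `D`
of norm at most `X` divisible by `1 + i` (their number is at least a constant times `X`) the proportion
of those for which `D y² = x³ - x` has only the points with `y = 0` over `ℚ(i)` and for which
`L(ψ_D ^ a * conj ψ_D ^ b, s)` does not vanish at `s = m` for all `m ≥ 1` and all `a + b = 2 m - 1` is
at least `α - ε` for all large `X`, for every `ε > 0`. -/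
theorem result :
    (419 / 1000 : ℝ) < ∏' n : ℕ, (1 - (1 / 2 : ℝ) ^ (2 * n + 1)) ∧
    (∀ X : ℝ, (Twists X).Finite) ∧
    (∃ c : ℝ, 0 < c ∧ ∀ X : ℝ, 2 ≤ X → c * X ≤ ((Twists X).ncard : ℝ)) ∧
    ∀ ε : ℝ, 0 < ε → ∃ X₀ : ℝ, ∀ X : ℝ, X₀ ≤ X →
      ((∏' n : ℕ, (1 - (1 / 2 : ℝ) ^ (2 * n + 1))) - ε) * ((Twists X).ncard : ℝ) ≤
        ({D ∈ Twists X | NoPoints D ∧ Nonvanishing D}.ncard : ℝ) :=
  Pool.Agent.Y690.PP.Fn.last

end Pool.Agent.Results.MP_b8021b_nt.PositiveProportion
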