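import Pool.Agent.Y690.Asm
import Pool.Agent.W765.HK.Pair
import Pool.Agent.W216.CY.Div
import Pool.Agent.W287.HK.Basic
import Pool.Agent.W571.HK.Cls
import Pool.Agent.W53.HK.Fp
import Pool.Agent.W366.HK.Fpr
import Pool.Agent.W585.HK.LAT
import Pool.Agent.W692.HK.Ker
import Pool.Agent.W584.HK.CNT
import Pool.Agent.W513.HK.Divr
import Pool.Agent.W822.HK.MU
import Pool.Agent.W240.HK.Count
import Pool.Agent.W856.HK.Dec
import Pool.Agent.W636.HK.Gauss
import Pool.Agent.W348.HK.Pois
import Pool.Agent.W29.HK.Prod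

/-!
# The analytic rank in the Beilinson–Bloch conjecture over ray class fields

`K` is an imaginary quadratic field with ring of integers `R` (any class number), `X` a smooth
projective variety over `K` and `m ≥ 1` such that `V = H^(2m-1)(X)` is a direct sum of `n` one
dimensional representations of `Gal(Kbar / K)`, i.e. of `n` Hecke characters `θ i` of `K`, of
infinity types `(a i, b i)` with `a i + b i = 2 m - 1`.  Examples: products of elliptic curves with
complex multiplication by `K` and abelian varieties over `K` that are isogenous over the algebraic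
closure to a power of such a curve and have all endomorphisms over `K` (all `m`), Fermat
hypersurfaces of degree `3`, `4` or `6`.

For an ideal `c` of `R` let `K(c)` be the ray class field modulo `c`.  If `c` is prime to the
conductors of the `θ i`, then `L(V / K(c), s)` is the product of the `L(θ i χ, s)` over the primitive
ray class characters `χ` of conductor dividing `c`.

We bound the order of vanishing at `s = m`, which by the Beilinson–Bloch conjecture is the rank of
`CH^m(X / K(c))_hom`, unconditionally and uniformly in `X`, `m` and `c`, provided that the unit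
group of `R / c` is cyclic, and we show that it is bounded, polynomially in all parameters, in the
towers `K(P ^ k)`, `k → ∞`, for the odd prime ideals `P` of degree one.
-/

set_option autoImplicit false

open Complex IsDedekindDomain

namespace Pool.Agent.Results.MP_b8021b_nt.RayClassTowers

/-- The norm `N(I)` of an ideal (`0` for the zero ideal, whose residue ring is infinite). -/
noncomputable def norm {R : Subring ℂ} (I : Ideal R) : ℝ := (Nat.card (R ⧸ I) : ℝ)

/-- `θ`, a function on the ideals of `R`, is a primitive Hecke character of conductor `f` and infinity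
type `(a, b)`: it is multiplicative, vanishes exactly at the zero ideal and the ideals not prime to
`f`, satisfies `θ((α)) = α ^ a * conj α ^ b` for `α ≡ 1 mod f`, and this fails for every strictly
larger ideal `f'` in place of `f`. -/
structure IsHecke {R : Subring ℂ} (a b : ℕ) (f : Ideal R) (θ : Ideal R → ℂ) : Prop where
  ne_bot : f ≠ ⊥
  mul : ∀ I J : Ideal R, θ (I * J) = θ I * θ J
  eq_zero : ∀ I : Ideal R, θ I = 0 ↔ (I = ⊥ ∨ ¬ IsCoprime I f)
  principal : ∀ α : R, α ≠ 0 → α - 1 ∈ f →
    θ (Ideal.span {α}) = (α : ℂ) ^ a * (starRingEnd ℂ) (α : ℂ) ^ b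
  primitive : ∀ f' : Ideal R, f < f' → ∃ α : R, α ≠ 0 ∧ α - 1 ∈ f' ∧
    IsCoprime (Ideal.span {α}) f ∧ θ (Ideal.span {α}) ≠ (α : ℂ) ^ a * (starRingEnd ℂ) (α : ℂ) ^ b

/-- The characters of the ray class group modulo `c`, i.e. of the Galois group of the ray class field
modulo `c`, as primitive characters of conductor dividing `c`. -/
def RayClassCharacters {R : Subring ℂ} (c : Ideal R) : Set (Ideal R → ℂ) :=
  {χ | ∃ d : Ideal R, d ∣ c ∧ IsHecke 0 0 d χ}

/-- `L` is the `L`-function, over the ray class field modulo `c`, of the direct sum of the Hecke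
characters `θ i` of weight `2 m - 1`: an entire function, for `Re s > m + 1/2` equal to its Euler
product, whose factor at the prime ideal `q` of `R` is the product of the factors at the primes of
the ray class field above `q`. -/
def IsLFunction {R : Subring ℂ} {n : ℕ} (m : ℕ) (θ : Fin n → Ideal R → ℂ) (c : Ideal R)
    (L : ℂ → ℂ) : Prop :=
  Differentiable ℂ L ∧ ∀ s : ℂ, (m : ℝ) + 1 / 2 < s.re →
    HasProd (fun q : HeightOneSpectrum R => ∏ᶠ χ ∈ RayClassCharacters c,
      ∏ i, (1 - θ i q.asIdeal * χ q.asIdeal * (norm q.asIdeal : ℂ) ^ (-s))⁻¹) (L s)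

open Pool.Agent.W192.HK in
theorem isHecke_iff {R : Subring ℂ} (a b : ℕ) (f : Ideal R) (θ : Ideal R → ℂ) :
    IsHecke a b f θ ↔ Pool.Agent.Y690.HT a b f θ :=
  ⟨fun h => ⟨h.ne_bot, h.mul, h.eq_zero, h.principal, h.primitive⟩,
    fun h => ⟨h.ne, h.mul, h.zero, h.princ, h.prim⟩⟩

open Pool.Agent.W192.HK in
theorem chars_eq {R : Subring ℂ} (c : Ideal R) :
    RayClassCharacters c = Pool.Agent.Y690.XC c := by
  ext χ
  constructor
  · rintro ⟨d, hd, h⟩
    refine ⟨d, hd, h.ne_bot, h.mul, h.eq_zero, fun α h1 h2 => ?_, fun f' hf => ?_⟩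
    · rw [h.principal α h1 h2, pow_zero, pow_zero, one_mul]
    · obtain ⟨α, h1, h2, h3, h4⟩ := h.primitive f' hf
      refine ⟨α, h1, h2, h3, ?_⟩
      rwa [pow_zero, pow_zero, one_mul] at h4
  · rintro ⟨d, hd, h⟩
    refine ⟨d, hd, h.ne, h.mul, h.zero, fun α h1 h2 => ?_, fun f' hf => ?_⟩
    · rw [h.princ α h1 h2, pow_zero, pow_zero, one_mul]
    · obtain ⟨α, h1, h2, h3, h4⟩ := h.prim f' hf
      refine ⟨α, h1, h2, h3, ?_⟩
      rwa [pow_zero, pow_zero, one_mul]

/-- **Main theorem.** Let `R = ℤ + ℤ ω` be a subring of `ℂ` that is a lattice and a Dedekind domain,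
the ring of integers of an imaginary quadratic field `K`.  For every `ε > 0` there is a constant `C`,
depending on `K` and `ε` only, such that the following holds for every `m ≥ 1` and all primitive
Hecke characters `θ 1, ..., θ n` of `K` of infinity types `(a i, b i)` with `a i + b i = 2 m - 1`,
whose conductors have norms at most `N`.

(1) If the nonzero ideal `c` is prime to all the conductors and the unit group of `R / c` is cyclic,
then the `L`-function of the direct sum of the `θ i` over the ray class field modulo `c` exists and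
its order of vanishing at the centre `s = m` is at most
`C n ((N N(c)) ^ (2/3) + (m N N(c)) ^ (1/2)) ^ (1 + ε)`.

(2) If `P` is a prime ideal of norm an odd prime number `p`, unramified over `ℚ` and prime to all the
conductors, then for all `k` the order of vanishing over the ray class field modulo `P ^ k` is at
most `C n ((N p ^ k) ^ (2/3) + (m N p ^ k) ^ (1/2)) ^ (1 + ε)` and at most
`C n ((N p) ^ 2 + m N p) ^ (1 + ε)`. -/
theorem result (R : Subring ℂ) (ω : ℂ) (hω : 0 < ω.im)
    (hR : ∀ z : ℂ, z ∈ R ↔ ∃ x y : ℤ, z = x + y * ω) (hded : IsDedekindDomain R)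
    (ε : ℝ) (hε : 0 < ε) :
    ∃ C : ℝ, ∀ (m n : ℕ) (a b : Fin n → ℕ) (f : Fin n → Ideal R) (θ : Fin n → Ideal R → ℂ)
      (N : ℝ), 1 ≤ m → (∀ i, a i + b i = 2 * m - 1) → (∀ i, IsHecke (a i) (b i) (f i) (θ i)) →
      (∀ i, norm (f i) ≤ N) →
      (∀ c : Ideal R, c ≠ ⊥ → IsCyclic (R ⧸ c)ˣ → (∀ i, IsCoprime (f i) c) →
        (RayClassCharacters c).Finite ∧ ∃ L : ℂ → ℂ, IsLFunction m θ c L ∧
          analyticOrderAt L m ≠ ⊤ ∧
          (analyticOrderNatAt L m : ℝ) ≤
            C * n * ((N * norm c) ^ (2 / 3 : ℝ) + (m * N * norm c) ^ (1 / 2 : ℝ)) ^ (1 + ε)) ∧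
      (∀ (P : Ideal R) (p : ℕ), p.Prime → p ≠ 2 → norm P = p → (p : R) ∉ P ^ 2 →
        (∀ i, IsCoprime (f i) P) → ∀ k : ℕ,
        (RayClassCharacters (P ^ k)).Finite ∧ ∃ L : ℂ → ℂ, IsLFunction m θ (P ^ k) L ∧
          analyticOrderAt L m ≠ ⊤ ∧
          (analyticOrderNatAt L m : ℝ) ≤
            C * n * ((N * p ^ k) ^ (2 / 3 : ℝ) + (m * N * p ^ k) ^ (1 / 2 : ℝ)) ^ (1 + ε) ∧
          (analyticOrderNatAt L m : ℝ) ≤ C * n * ((N * p) ^ 2 + m * N * p) ^ (1 + ε)) := by
  have hbasic := Pool.Agent.W287.HK.h_basic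
  have hcls := Pool.Agent.W571.HK.h_cls hbasic
  have hfp := Pool.Agent.W53.HK.h_fp hbasic hcls
  have hfpr := Pool.Agent.W366.HK.h_fpr hbasic hcls
  have hlat := Pool.Agent.W585.HK.h_lat hbasic
  have hker := Pool.Agent.W692.HK.h_ker hbasic hcls hfpr
  have hcnt := Pool.Agent.W584.HK.h_cnt hbasic hcls hfpr hlat hker
  have hdivr := Pool.Agent.W513.HK.h_divr hbasic
  have hmu := Pool.Agent.W822.HK.h_mu hbasic
  have hcount := Pool.Agent.W240.HK.h_count hbasic hcnt hdivr
  have hdiv := Pool.Agent.W216.CY.t_div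
  have hdec := Pool.Agent.W856.HK.h_dec hbasic
  have hgauss := Pool.Agent.W636.HK.h_gauss hbasic hfp
  have hpois := Pool.Agent.W348.HK.h_pois hbasic
  have htheta := Pool.Agent.TH936.HK.h_theta hbasic hfp hdec hgauss hpois hcnt
  have hafe := Pool.Agent.TH936.HK.h_afe hbasic hfp hcnt hgauss htheta
  have htail := Pool.Agent.Y683.tailz hbasic hcnt hcount
  have hmain := Pool.Agent.Y683.mainb hbasic hcnt hdivr htail
  have hdual := Pool.Agent.Y683.dualb hdiv hbasic hcnt hker hfpr
  have hfin := Pool.Agent.Y683.finb hdiv hbasic hcnt hmu hmain hdual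
  have hprod := Pool.Agent.W29.HK.h_prod hbasic hfp
  have hQ : Pool.Agent.W192.HK.QR R ω := ⟨hω, hR, hded⟩
  obtain ⟨C, -, H⟩ := Pool.Agent.Y690.family hbasic hcls hcnt hfpr hfp hdec hgauss htheta hafe hprod
    hfin hQ ε hε
  refine ⟨C, fun m n a b f θ N hm hab hθ hN => ⟨fun c hc hcyc hfc => ?_,
    fun P p hp hp2 hP hunr hfP k => ?_⟩⟩
  · obtain ⟨γ, hγ⟩ := Pool.Agent.Y690.gen_of_cyc hbasic hQ hc hcyc
    obtain ⟨h1, L, h2, h3, h4, h5, -⟩ := H m n a b f θ N hm hab (fun i => (isHecke_iff _ _ _ _).1 (hθ i))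
      hN c γ hc hγ hfc
    refine ⟨by rw [chars_eq]; exact h1, L, ⟨h2, ?_⟩, h4, h5⟩
    rw [chars_eq]
    exact h3
  · have hdeg : Pool.Agent.Y690.Deg1 P p := ⟨hp, hp2, hP, hunr⟩
    have hc : P ^ k ≠ ⊥ := pow_ne_zero k (hdeg.ne_bot hbasic hQ)
    obtain ⟨γ, hγ⟩ := Pool.Agent.Y690.gen_of_cyc hbasic hQ hc (hdeg.cyc hbasic hQ k)
    obtain ⟨h1, L, h2, h3, h4, h5, h6⟩ := H m n a b f θ N hm hab
      (fun i => (isHecke_iff _ _ _ _).1 (hθ i)) hN (P ^ k) γ hc hγ
      (fun i => IsCoprime.pow_right (hfP i))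
    refine ⟨by rw [chars_eq]; exact h1, L, ⟨h2, ?_⟩, h4, ?_, h6 P p k hdeg rfl⟩
    · rw [chars_eq]
      exact h3
    · rw [hdeg.nm_pow hbasic hQ] at h5
      exact h5

end Pool.Agent.Results.MP_b8021b_nt.RayClassTowers
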